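import Pool.Agent.Helper46.RL.All2

/-!
# MP_d72c68_al: a bound for all finite groups

The number of multiplications is at most `(23 + 44 log₂ s) log₂|G|`, where `s` is the product of the
orders of the nonabelian factors of a normal series of `G` (of a chief series, for example).
-/

set_option autoImplicit false

namespace Pool.Agent.Results.MP_d72c68_al.AllFiniteGroups

open Pool.Agent.Helper46.RL

/-- Let `G` be a nontrivial finite group, `G = K 0 ≥ K 1 ≥ ... ≥ K n = 1` normal subgroups of `G`, and `T` a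
finite set of indices such that `K i / K (i + 1)` is abelian for `i` not in `T`.  Every element of `G`
is obtained from every generating set `X` with at most
`(23 + 44 ∑_{i ∈ T} log₂ |K i : K (i + 1)|) log₂|G|` multiplications. -/
theorem result :
    ∀ (G : Type) [Group G] [Fintype G], Nontrivial G →
      ∀ (K : ℕ → Subgroup G) (n : ℕ) (T : Finset ℕ), K 0 = ⊤ → K n = ⊥ →
        (∀ i, K (i + 1) ≤ K i) → (∀ i, (K i).Normal) →
        (∀ i, i ∉ T → ∀ a ∈ K i, ∀ b ∈ K i, a * b * a⁻¹ * b⁻¹ ∈ K (i + 1)) →
      ∀ X : Set G, Subgroup.closure X = ⊤ →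
        ∀ g : G, ∃ k : ℕ, (k : ℝ) ≤
            (23 + 44 * ∑ i ∈ T, Real.logb 2 ((K (i + 1)).relIndex (K i))) *
              Real.logb 2 (Fintype.card G) ∧
          ∃ y : Fin k → G,
            (∀ i : Fin k, ∃ a b : G,
                (a ∈ X ∨ ∃ j : Fin k, j < i ∧ y j = a) ∧
                (b ∈ X ∨ ∃ j : Fin k, j < i ∧ y j = b) ∧
                y i = a * b) ∧
            (g ∈ X ∨ ∃ i : Fin k, y i = g) := by
  intro G _ _ hn K n T h0 hK hanti hnorm hab X hX g
  obtain ⟨k, hk, h⟩ := all_finite G X n K T hX h0 hK hanti hnorm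
    (fun i hi => (Subgroup.commutator_le).2 fun a ha b hb => hab i hi a ha b hb) g
  refine ⟨k, ?_, h⟩
  rwa [Nat.card_eq_fintype_card] at hk

end Pool.Agent.Results.MP_d72c68_al.AllFiniteGroups
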