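import Pool.Agent.Helper46.RL.All

/-!
# MP_d72c68_al: the constant for solvable groups without small prime factors

If no prime below `p` divides the order of the finite solvable group `G`, every element is
obtained from every generating set with at most
`(1 + 2/w + (2^(w+1) + 11)/log₂ p) log₂|G|` multiplications, for every `w ≥ 1`.
For `w = 3`, `p > 2^81` this is less than `2 log₂|G|`, the bound of the question.
-/

set_option autoImplicit false

namespace Pool.Agent.Results.MP_d72c68_al.LargePrimes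

open Pool.Agent.Helper46.RL

/-- `G` a nontrivial finite solvable group, `p ≥ 2` at most every prime factor of `|G|`, `X` a generating
set, `g` in `G`.  For every `w ≥ 1` there is a multiplication chain of length at most
`(1 + 2/w + (2^(w+1) + 11)/log₂ p) log₂|G|` from `X` to `g`; and if `p > 2^81` there is one of
length less than `2 log₂|G|`. -/
theorem result :
    ∀ (G : Type) [Group G] [Fintype G], Nontrivial G → Group.IsSolvable G →
      ∀ p : ℕ, 2 ≤ p → (∀ q : ℕ, q.Prime → q ∣ Fintype.card G → p ≤ q) →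
        ∀ X : Set G, Subgroup.closure X = ⊤ → ∀ g : G,
          (∀ w : ℕ, 1 ≤ w → ∃ k : ℕ, (k : ℝ) ≤
              (1 + 2 / w + (2 ^ (w + 1) + 11) / Real.logb 2 p) *
                Real.logb 2 (Fintype.card G) ∧
            ∃ y : Fin k → G,
              (∀ i : Fin k, ∃ a b : G,
                  (a ∈ X ∨ ∃ j : Fin k, j < i ∧ y j = a) ∧
                  (b ∈ X ∨ ∃ j : Fin k, j < i ∧ y j = b) ∧
                  y i = a * b) ∧
              (g ∈ X ∨ ∃ i : Fin k, y i = g)) ∧
          (2 ^ 81 < p → ∃ k : ℕ, (k : ℝ) < 2 * Real.logb 2 (Fintype.card G) ∧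
            ∃ y : Fin k → G,
              (∀ i : Fin k, ∃ a b : G,
                  (a ∈ X ∨ ∃ j : Fin k, j < i ∧ y j = a) ∧
                  (b ∈ X ∨ ∃ j : Fin k, j < i ∧ y j = b) ∧
                  y i = a * b) ∧
              (g ∈ X ∨ ∃ i : Fin k, y i = g)) := by
  intro G _ _ hn hs p hp hq X hX g
  have key : ∀ w : ℕ, 1 ≤ w → ∃ k : ℕ, (k : ℝ) ≤
      (1 + 2 / w + (2 ^ (w + 1) + 11) / Real.logb 2 p) * Real.logb 2 (Fintype.card G) ∧
      Obt X g k := by
    intro w hw
    have := finB G X w p hw hp (by rwa [Nat.card_eq_fintype_card]) hX g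
    rwa [Nat.card_eq_fintype_card] at this
  refine ⟨key, fun hp2 => ?_⟩
  obtain ⟨k, hk, h⟩ := key 3 (by norm_num)
  refine ⟨k, lt_of_le_of_lt hk ?_, h⟩
  have hL : 0 < Real.logb 2 (Fintype.card G) := by
    apply Real.logb_pos (by norm_num)
    have : 1 < Fintype.card G := Fintype.one_lt_card
    exact_mod_cast this
  have hlp : (81 : ℝ) < Real.logb 2 p := by
    rw [Real.lt_logb_iff_rpow_lt (by norm_num) (by positivity)]
    have h1 : ((2 : ℝ) ^ (81 : ℝ)) = 2 ^ (81 : ℕ) := by
      rw [← Real.rpow_natCast]; norm_num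
    rw [h1]
    exact_mod_cast hp2
  have h2 : (2 ^ (3 + 1) + 11 : ℝ) / Real.logb 2 p < 27 / 81 := by
    rw [show (2 ^ (3 + 1) + 11 : ℝ) = 27 by norm_num,
      div_lt_div_iff₀ (by linarith) (by norm_num)]
    linarith
  have h3 : (1 + 2 / ((3 : ℕ) : ℝ) + (2 ^ (3 + 1) + 11) / Real.logb 2 p) < 2 := by
    push_cast
    linarith
  exact mul_lt_mul_of_pos_right h3 hL

end Pool.Agent.Results.MP_d72c68_al.LargePrimes
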