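import Pool.Agent.Helper46.RL.All

/-!
# MP_d72c68_al: a linear bound for solvable groups

In a finite solvable group `G` every element is obtained from every generating set with at most
`15 log₂|G|` multiplications.
-/

set_option autoImplicit false

namespace Pool.Agent.Results.MP_d72c68_al.LinearSolvable

open Pool.Agent.Helper46.RL

/-- For every nontrivial finite solvable group `G`, every generating set `X` and every `g` in `G`
there is a multiplication chain of length at most `15 log₂|G|` from `X` to `g`. -/
theorem result :
    ∀ (G : Type) [Group G] [Fintype G], Nontrivial G → Group.IsSolvable G →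
      ∀ X : Set G, Subgroup.closure X = ⊤ →
        ∀ g : G, ∃ k : ℕ, (k : ℝ) ≤ 15 * Real.logb 2 (Fintype.card G) ∧
          ∃ y : Fin k → G,
            (∀ i : Fin k, ∃ a b : G,
                (a ∈ X ∨ ∃ j : Fin k, j < i ∧ y j = a) ∧
                (b ∈ X ∨ ∃ j : Fin k, j < i ∧ y j = b) ∧
                y i = a * b) ∧
            (g ∈ X ∨ ∃ i : Fin k, y i = g) := by
  intro G _ _ hn hs X hX g
  obtain ⟨k, hk, h⟩ := finA G X hX g
  refine ⟨k, ?_, h⟩
  rwa [Nat.card_eq_fintype_card] at hk

end Pool.Agent.Results.MP_d72c68_al.LinearSolvable
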