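import Pool.Agent.Helper63.PGR.Fin

/-!
# MP_d72c68_al: finite `p`-groups

Every element of a nontrivial finite `p`-group `G` is obtained from every generating set with
fewer than `c log₂|G|` multiplications, `c = 2` (the bound of the question) for odd `p` and
`c = 3` for `p = 2`.
-/

set_option autoImplicit false

namespace Pool.Agent.Results.MP_d72c68_al.PGroups

open Pool.Agent.Helper46.RL

/-- `p` a prime, `G` a nontrivial finite `p`-group, `X` a generating set, `g` in `G`.  There is a
multiplication chain of length `k` from `X` to `g` with `k + 1 ≤ c log₂|G|` and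
`k + 2 d ≤ c log₂|G| + 2`, where `d` is the minimal number of generators of `G`, `c = 2` for odd
`p` and `c = 3` for `p = 2`. -/
theorem result :
    ∀ (G : Type) [Group G] [Fintype G], Nontrivial G → ∀ p : ℕ, p.Prime → IsPGroup p G →
      ∀ X : Set G, Subgroup.closure X = ⊤ → ∀ g : G,
        ∃ k : ℕ,
          (k : ℝ) + 1 ≤ (if p = 2 then 3 else 2) * Real.logb 2 (Fintype.card G) ∧
          (k : ℝ) + 2 * (Group.rank G : ℝ) ≤
            (if p = 2 then 3 else 2) * Real.logb 2 (Fintype.card G) + 2 ∧
          ∃ y : Fin k → G,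
            (∀ i : Fin k, ∃ a b : G,
                (a ∈ X ∨ ∃ j : Fin k, j < i ∧ y j = a) ∧
                (b ∈ X ∨ ∃ j : Fin k, j < i ∧ y j = b) ∧
                y i = a * b) ∧
            (g ∈ X ∨ ∃ i : Fin k, y i = g) := by
  intro G _ _ hn p hp hG X hX g
  obtain ⟨n, hn1, hn2, hn3⟩ := Pool.Agent.Helper63.PGR.main hp G hG X hX g
  obtain ⟨k, hk, h⟩ := hn1.obt
  have hex : ((Pool.Agent.Helper63.PGR.ex p : ℕ) : ℝ) = if p = 2 then 3 else 2 := by
    unfold Pool.Agent.Helper63.PGR.ex
    split_ifs <;> norm_num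
  rw [Nat.card_eq_fintype_card] at hn2 hn3
  have hc : (0 : ℝ) < Fintype.card G := by exact_mod_cast Fintype.card_pos
  have hlog : ∀ m a : ℕ, 2 ^ m ≤ 2 ^ a * Fintype.card G ^ Pool.Agent.Helper63.PGR.ex p →
      (m : ℝ) ≤ (if p = 2 then 3 else 2) * Real.logb 2 (Fintype.card G) + a := by
    intro m a hm
    have h1 : ((2 : ℝ) ^ m) ≤ 2 ^ a * (Fintype.card G : ℝ) ^ Pool.Agent.Helper63.PGR.ex p := by
      exact_mod_cast hm
    have h2 := Real.logb_le_logb_of_le (b := 2) (by norm_num) (by positivity) h1
    rw [Real.logb_mul (by positivity) (by positivity), Real.logb_pow, Real.logb_pow,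
      Real.logb_pow, Real.logb_self_eq_one (by norm_num), mul_one, mul_one, hex] at h2
    linarith
  have hkn : (k : ℝ) ≤ n := by exact_mod_cast hk
  refine ⟨k, ?_, ?_, h⟩
  · have h1 := hlog (n + 1) 0 (by simpa using hn2)
    push_cast at h1
    linarith
  · have h1 := hlog (n + 2 * Group.rank G) 2 (by simpa using hn3)
    push_cast at h1
    linarith

end Pool.Agent.Results.MP_d72c68_al.PGroups
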